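import Mathlib

/-!
Conservative homomorphisms, wreath products and words with coefficients in a group.
-/

set_option autoImplicit false
set_option linter.unusedSectionVars false

open Monoid

namespace Pool.Agent.TH6.KE

universe u v w z

/-- `φ : G → H` is conservative: if `1` is a product of `H`-conjugates of `φ (g 0), ..., φ (g (r-1))`
then `1` is a product of `G`-conjugates of `g 0, ..., g (r-1)`. -/
def Conservative {G : Type u} {H : Type v} [Group G] [Group H] (φ : G →* H) : Prop :=
  ∀ (r : ℕ) (g : Fin r → G),
    (∃ h : Fin r → H, (List.ofFn fun i => h i * φ (g i) * (h i)⁻¹).prod = 1) →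
    ∃ k : Fin r → G, (List.ofFn fun i => k i * g i * (k i)⁻¹).prod = 1

lemma Conservative.comp {G : Type u} {H : Type v} {K : Type w} [Group G] [Group H] [Group K]
    {φ : G →* H} {ψ : H →* K} (hψ : Conservative ψ) (hφ : Conservative φ) :
    Conservative (ψ.comp φ) := fun r g h => hφ r g (hψ r (fun i => φ (g i)) h)

lemma Conservative.of_comp {G : Type u} {H : Type v} {K : Type w} [Group G] [Group H] [Group K]
    {φ : G →* H} {ψ : H →* K} (h : Conservative (ψ.comp φ)) : Conservative φ := by
  rintro r g ⟨k, hk⟩
  refine h r g ⟨fun i => ψ (k i), ?_⟩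
  have := congrArg ψ hk
  rw [map_one, map_list_prod, List.map_ofFn] at this
  rw [← this]
  congr 2
  funext i
  simp

/-! ### The wreath product -/

/-- wreath product of `P` with the additive group `A` -/
@[ext] structure Wr (P : Type u) (A : Type v) where
  f : A → P
  a : A

namespace Wr

variable {P : Type u} [Group P] {A : Type v} [AddCommGroup A]

instance : Mul (Wr P A) := ⟨fun x y => ⟨fun i => x.f i * y.f (i - x.a), x.a + y.a⟩⟩
instance : One (Wr P A) := ⟨⟨fun _ => 1, 0⟩⟩
instance : Inv (Wr P A) := ⟨fun x => ⟨fun i => (x.f (i + x.a))⁻¹, -x.a⟩⟩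

@[simp] lemma mul_f (x y : Wr P A) (i : A) : (x * y).f i = x.f i * y.f (i - x.a) := rfl
@[simp] lemma mul_a (x y : Wr P A) : (x * y).a = x.a + y.a := rfl
@[simp] lemma one_f (i : A) : (1 : Wr P A).f i = 1 := rfl
@[simp] lemma one_a : (1 : Wr P A).a = 0 := rfl
@[simp] lemma inv_f (x : Wr P A) (i : A) : (x⁻¹).f i = (x.f (i + x.a))⁻¹ := rfl
@[simp] lemma inv_a (x : Wr P A) : (x⁻¹).a = -x.a := rfl

instance : Group (Wr P A) := Group.ofLeftAxioms
  (fun x y z => by
    ext i
    · simp only [mul_f, mul_a, mul_assoc, sub_add_eq_sub_sub]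
    · simp only [mul_a, add_assoc])
  (fun x => by
    ext i
    · simp
    · simp)
  (fun x => by
    ext i
    · simp
    · simp)

/-- the diagonal -/
def diag (P : Type u) [Group P] (A : Type v) [AddCommGroup A] : P →* Wr P A where
  toFun g := ⟨fun _ => g, 0⟩
  map_one' := rfl
  map_mul' g h := by
    ext i
    · simp
    · simp

@[simp] lemma diag_f (g : P) (i : A) : (diag P A g).f i = g := rfl
@[simp] lemma diag_a (g : P) : (diag P A g).a = 0 := rfl

lemma prod_f (l : List (Wr P A)) (h : ∀ x ∈ l, x.a = 0) (i : A) :
    l.prod.f i = (l.map fun x => x.f i).prod := by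
  induction l with
  | nil => simp
  | cons x l ih =>
    rw [List.prod_cons, mul_f, h x (List.mem_cons_self), sub_zero,
      ih (fun y hy => h y (List.mem_cons_of_mem _ hy)), List.map_cons, List.prod_cons]

lemma conservative_diag : Conservative (diag P A) := by
  rintro r g ⟨h, hh⟩
  refine ⟨fun i => (h i).f 0, ?_⟩
  have h1 := congrArg (fun x : Wr P A => x.f 0) hh
  rw [prod_f _ (by
    intro x hx
    rw [List.mem_ofFn] at hx
    obtain ⟨i, rfl⟩ := hx
    simp), List.map_ofFn] at h1
  rw [one_f] at h1
  rw [← h1]
  congr 2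
  funext i
  simp

end Wr

/-- a solution in an overgroup in which `G` is conservative -/
lemma conservative_quot {G : Type u} {W : Type v} [Group G] [Group W] {ι κ : Type*}
    (w : κ → Coprod G (FreeGroup ι)) (d : G →* W) (hd : Conservative d) (τ : ι → W)
    (h : ∀ j, Coprod.lift d (FreeGroup.lift τ) (w j) = 1) :
    Conservative ((QuotientGroup.mk' (Subgroup.normalClosure (Set.range w))).comp
      (Coprod.inl : G →* Coprod G (FreeGroup ι))) := by
  have h1 : Subgroup.normalClosure (Set.range w) ≤ (Coprod.lift d (FreeGroup.lift τ)).ker := by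
    apply Subgroup.normalClosure_le_normal
    rintro _ ⟨j, rfl⟩
    exact h j
  apply Conservative.of_comp (ψ := QuotientGroup.lift _ (Coprod.lift d (FreeGroup.lift τ))
    (fun x hx => h1 hx))
  have : ((QuotientGroup.lift _ (Coprod.lift d (FreeGroup.lift τ)) (fun x hx => h1 hx)).comp
      ((QuotientGroup.mk' (Subgroup.normalClosure (Set.range w))).comp
      (Coprod.inl : G →* Coprod G (FreeGroup ι)))) = d := by
    ext x
    simp
  rw [this]
  exact hd

/-! ### Words -/

/-- words with letters `g ∈ G`, `t_i` (`(i, true)`) and `t_i⁻¹` (`(i, false)`) -/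
abbrev Wd (G : Type u) (ι : Type v) := List (G ⊕ ι × Bool)

variable {G : Type u} [Group G] {ι : Type v} [DecidableEq ι] {W : Type w} [Group W]

/-- value of a letter -/
def lval (d : G →* W) (τ : ι → W) : G ⊕ ι × Bool → W
  | Sum.inl g => d g
  | Sum.inr (i, true) => τ i
  | Sum.inr (i, false) => (τ i)⁻¹

/-- value of a word -/
def ev (d : G →* W) (τ : ι → W) (L : Wd G ι) : W := (L.map (lval d τ)).prod

/-- number of occurrences of `t_i` in a letter -/
def locc (i : ι) : G ⊕ ι × Bool → ℕ
  | Sum.inl _ => 0
  | Sum.inr (j, _) => if j = i then 1 else 0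

/-- number of occurrences of `t_i` and `t_i⁻¹` in a word -/
def occ (i : ι) (L : Wd G ι) : ℕ := (L.map (locc i)).sum

/-- number of unknowns in a letter -/
def llen : G ⊕ ι × Bool → ℕ
  | Sum.inl _ => 0
  | Sum.inr _ => 1

/-- number of letters of a word which are unknowns -/
def len (L : Wd G ι) : ℕ := (L.map llen).sum

/-- exponent of `t_i` in a letter -/
def lexp (i : ι) : G ⊕ ι × Bool → ℤ
  | Sum.inl _ => 0
  | Sum.inr (j, s) => if j = i then (if s then 1 else -1) else 0

/-- exponent sum of `t_i` in a word -/
def exp (i : ι) (L : Wd G ι) : ℤ := (L.map (lexp i)).sum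

/-- inverse letter -/
def linv : G ⊕ ι × Bool → G ⊕ ι × Bool
  | Sum.inl g => Sum.inl g⁻¹
  | Sum.inr (j, s) => Sum.inr (j, !s)

/-- inverse word -/
def winv (L : Wd G ι) : Wd G ι := (L.map linv).reverse

/-- substitution in a letter -/
def lsub (i : ι) (v : Wd G ι) : G ⊕ ι × Bool → Wd G ι
  | Sum.inl g => [Sum.inl g]
  | Sum.inr (j, s) => if j = i then (if s then v else winv v) else [Sum.inr (j, s)]

/-- substitution of the word `v` for `t_i` -/
def wsub (i : ι) (v : Wd G ι) (L : Wd G ι) : Wd G ι := L.flatMap (lsub i v)

section basic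

variable (d : G →* W) (τ : ι → W)

omit [DecidableEq ι] in
@[simp] lemma ev_nil : ev d τ [] = 1 := rfl
omit [DecidableEq ι] in
@[simp] lemma ev_cons (x : G ⊕ ι × Bool) (L : Wd G ι) : ev d τ (x :: L) = lval d τ x * ev d τ L := by
  simp [ev]
omit [DecidableEq ι] in
@[simp] lemma ev_append (L M : Wd G ι) : ev d τ (L ++ M) = ev d τ L * ev d τ M := by
  simp [ev]

@[simp] lemma occ_nil (i : ι) : occ i ([] : Wd G ι) = 0 := rfl
@[simp] lemma occ_cons (i : ι) (x : G ⊕ ι × Bool) (L : Wd G ι) : occ i (x :: L) = locc i x + occ i L := by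
  simp [occ]
@[simp] lemma occ_append (i : ι) (L M : Wd G ι) : occ i (L ++ M) = occ i L + occ i M := by
  simp [occ]

omit [Group G] [DecidableEq ι] in
@[simp] lemma len_nil : len ([] : Wd G ι) = 0 := rfl
omit [Group G] [DecidableEq ι] in
@[simp] lemma len_cons (x : G ⊕ ι × Bool) (L : Wd G ι) : len (x :: L) = llen x + len L := by
  simp [len]
omit [Group G] [DecidableEq ι] in
@[simp] lemma len_append (L M : Wd G ι) : len (L ++ M) = len L + len M := by
  simp [len]

@[simp] lemma exp_nil (i : ι) : exp i ([] : Wd G ι) = 0 := rfl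
@[simp] lemma exp_cons (i : ι) (x : G ⊕ ι × Bool) (L : Wd G ι) : exp i (x :: L) = lexp i x + exp i L := by
  simp [exp]
@[simp] lemma exp_append (i : ι) (L M : Wd G ι) : exp i (L ++ M) = exp i L + exp i M := by
  simp [exp]

omit [DecidableEq ι] in
lemma winv_cons (x : G ⊕ ι × Bool) (L : Wd G ι) : winv (x :: L) = winv L ++ [linv x] := by
  simp [winv]

omit [DecidableEq ι] in
@[simp] lemma winv_nil : winv ([] : Wd G ι) = [] := rfl

lemma wsub_cons (i : ι) (v : Wd G ι) (x : G ⊕ ι × Bool) (L : Wd G ι) :
    wsub i v (x :: L) = lsub i v x ++ wsub i v L := by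
  simp [wsub]

@[simp] lemma wsub_nil (i : ι) (v : Wd G ι) : wsub i v [] = [] := rfl

omit [DecidableEq ι] in
@[simp] lemma ev_winv (L : Wd G ι) : ev d τ (winv L) = (ev d τ L)⁻¹ := by
  induction L with
  | nil => simp
  | cons x L ih =>
    have h1 : lval d τ (linv x) = (lval d τ x)⁻¹ := by
      rcases x with g | ⟨j, s⟩
      · simp [linv, lval]
      · cases s <;> simp [linv, lval]
    rw [winv_cons, ev_append, ih, ev_cons, ev_cons, ev_nil, mul_one, mul_inv_rev, h1]

@[simp] lemma occ_winv (i : ι) (L : Wd G ι) : occ i (winv L) = occ i L := by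
  induction L with
  | nil => simp
  | cons x L ih =>
    have h1 : locc i (linv x) = locc i x := by
      rcases x with g | ⟨j, s⟩ <;> rfl
    rw [winv_cons, occ_append, ih, occ_cons, occ_cons, occ_nil, add_zero, add_comm, h1]

omit [DecidableEq ι] in
@[simp] lemma len_winv (L : Wd G ι) : len (winv L) = len L := by
  induction L with
  | nil => simp
  | cons x L ih =>
    have h1 : llen (linv x) = llen x := by
      rcases x with g | ⟨j, s⟩ <;> rfl
    rw [winv_cons, len_append, ih, len_cons, len_cons, len_nil, add_zero, add_comm, h1]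

@[simp] lemma exp_winv (i : ι) (L : Wd G ι) : exp i (winv L) = -exp i L := by
  induction L with
  | nil => simp
  | cons x L ih =>
    have h1 : lexp i (linv x) = -lexp i x := by
      rcases x with g | ⟨j, s⟩
      · simp [linv, lexp]
      · by_cases h : j = i
        · cases s <;> simp [linv, lexp, h]
        · simp [linv, lexp, h]
    rw [winv_cons, exp_append, ih, exp_cons, exp_cons, exp_nil, add_zero, neg_add, h1, add_comm]

lemma ev_wsub (i : ι) (v : Wd G ι) (L : Wd G ι) :
    ev d (Function.update τ i (ev d τ v)) L = ev d τ (wsub i v L) := by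
  induction L with
  | nil => simp
  | cons x L ih =>
    rw [wsub_cons, ev_append, ev_cons, ih]
    congr 1
    rcases x with g | ⟨j, s⟩
    · simp [lsub, lval]
    · by_cases h : j = i
      · subst h
        cases s <;> simp [lsub, lval]
      · cases s <;> simp [lsub, lval, h]

lemma occ_wsub_of_ne (i : ι) (v : Wd G ι) (L : Wd G ι) (l : ι) (hl : l ≠ i) :
    occ l (wsub i v L) = occ l L + occ i L * occ l v := by
  induction L with
  | nil => simp
  | cons x L ih =>
    rw [wsub_cons, occ_append, ih, occ_cons, occ_cons]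
    rcases x with g | ⟨j, s⟩
    · simp [lsub, locc]
    · by_cases h : j = i
      · subst h
        cases s
        · simp [lsub, locc, hl.symm]
          ring
        · simp [lsub, locc, hl.symm]
          ring
      · simp [lsub, locc, h]
        ring

lemma occ_wsub_self (i : ι) (v : Wd G ι) (L : Wd G ι) :
    occ i (wsub i v L) = occ i L * occ i v := by
  induction L with
  | nil => simp
  | cons x L ih =>
    rw [wsub_cons, occ_append, ih, occ_cons]
    rcases x with g | ⟨j, s⟩
    · simp [lsub, locc]
    · by_cases h : j = i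
      · subst h
        cases s
        · simp [lsub, locc]
          ring
        · simp [lsub, locc]
          ring
      · simp [lsub, locc, h]

lemma len_wsub (i : ι) (v : Wd G ι) (L : Wd G ι) :
    len (wsub i v L) + occ i L = len L + occ i L * len v := by
  induction L with
  | nil => simp
  | cons x L ih =>
    rw [wsub_cons, len_append, len_cons, occ_cons]
    rcases x with g | ⟨j, s⟩
    · simp only [lsub, locc, len_cons, len_nil, llen, zero_add]
      omega
    · by_cases h : j = i
      · subst h
        cases s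
        · simp only [lsub, locc, llen, if_true, Bool.false_eq_true, if_false, len_winv]
          rw [add_mul, one_mul]
          omega
        · simp only [lsub, locc, llen, if_true]
          rw [add_mul, one_mul]
          omega
      · simp only [lsub, locc, llen, h, if_false, len_cons, len_nil]
        rw [add_mul, zero_mul]
        omega

lemma exp_wsub_of_ne (i : ι) (v : Wd G ι) (L : Wd G ι) (l : ι) (hl : l ≠ i) :
    exp l (wsub i v L) = exp l L + exp i L * exp l v := by
  induction L with
  | nil => simp
  | cons x L ih =>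
    rw [wsub_cons, exp_append, ih, exp_cons, exp_cons]
    rcases x with g | ⟨j, s⟩
    · simp [lsub, lexp]
    · by_cases h : j = i
      · subst h
        cases s
        · simp [lsub, lexp, hl.symm]
          ring
        · simp [lsub, lexp, hl.symm]
          ring
      · simp [lsub, lexp, h]
        ring

lemma exp_wsub_self (i : ι) (v : Wd G ι) (L : Wd G ι) :
    exp i (wsub i v L) = exp i L * exp i v := by
  induction L with
  | nil => simp
  | cons x L ih =>
    rw [wsub_cons, exp_append, ih, exp_cons]
    rcases x with g | ⟨j, s⟩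
    · simp [lsub, lexp]
    · by_cases h : j = i
      · subst h
        cases s
        · simp [lsub, lexp]
          ring
        · simp [lsub, lexp]
          ring
      · simp [lsub, lexp, h]

lemma occ_le_len (i : ι) (L : Wd G ι) : occ i L ≤ len L := by
  induction L with
  | nil => simp
  | cons x L ih =>
    rw [occ_cons, len_cons]
    rcases x with g | ⟨j, s⟩
    · simp only [locc, llen]
      omega
    · simp only [locc, llen]
      split_ifs <;> omega

lemma occ_add_le_len (i l : ι) (h : i ≠ l) (L : Wd G ι) : occ i L + occ l L ≤ len L := by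
  induction L with
  | nil => simp
  | cons x L ih =>
    rw [occ_cons, occ_cons, len_cons]
    rcases x with g | ⟨j, s⟩
    · simp only [locc, llen]
      omega
    · simp only [locc, llen]
      by_cases h1 : j = i
      · have h2 : j ≠ l := fun h2 => h (h1.symm.trans h2)
        simp only [h1, h, if_true, if_false]
        omega
      · simp only [h1, if_false]
        split_ifs <;> omega

lemma exp_eq_zero_of_occ (i : ι) (L : Wd G ι) (h : occ i L = 0) : exp i L = 0 := by
  induction L with
  | nil => simp
  | cons x L ih =>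
    rw [occ_cons] at h
    rw [exp_cons, ih (by omega), add_zero]
    rcases x with g | ⟨j, s⟩
    · rfl
    · have h1 : locc i (Sum.inr (j, s) : G ⊕ ι × Bool) = 0 := by omega
      simp only [locc] at h1
      simp only [lexp]
      split_ifs at h1 ⊢ <;> simp_all

/-- values do not depend on letters which do not occur -/
lemma ev_congr (τ' : ι → W) (L : Wd G ι) (h : ∀ l, occ l L ≠ 0 → τ l = τ' l) :
    ev d τ L = ev d τ' L := by
  induction L with
  | nil => simp
  | cons x L ih =>
    rw [ev_cons, ev_cons, ih]
    · congr 1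
      rcases x with g | ⟨j, s⟩
      · rfl
      · have h1 : τ j = τ' j := h j (by simp [locc])
        cases s <;> simp [lval, h1]
    · intro l hl
      exact h l (by rw [occ_cons]; omega)

/-- all unknowns replaced by `1` -/
lemma ev_one (L : Wd G ι) : ev d (fun _ => 1) L = d (ev (MonoidHom.id G) (fun _ => 1) L) := by
  induction L with
  | nil => simp
  | cons x L ih =>
    rw [ev_cons, ev_cons, map_mul, ih]
    congr 1
    rcases x with g | ⟨j, s⟩
    · simp [lval]
    · cases s <;> simp [lval]

/-- a letter which occurs splits the word -/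
lemma split (i : ι) (L : Wd G ι) (h : occ i L ≠ 0) :
    ∃ (L₁ L₂ : Wd G ι) (s : Bool), L = L₁ ++ Sum.inr (i, s) :: L₂ ∧ occ i L₁ = 0 := by
  induction L with
  | nil => simp at h
  | cons x L ih =>
    rcases x with g | ⟨j, s⟩
    · have h1 : occ i L ≠ 0 := by simpa [locc] using h
      obtain ⟨L₁, L₂, s, h2, h3⟩ := ih h1
      refine ⟨Sum.inl g :: L₁, L₂, s, by rw [h2]; rfl, ?_⟩
      rw [occ_cons, h3]
      rfl
    · by_cases hj : j = i
      · subst hj
        exact ⟨[], L, s, rfl, rfl⟩
      · have h1 : occ i L ≠ 0 := by simpa [locc, hj] using h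
        obtain ⟨L₁, L₂, s', h2, h3⟩ := ih h1
        refine ⟨Sum.inr (j, s) :: L₁, L₂, s', by rw [h2]; rfl, ?_⟩
        rw [occ_cons, h3]
        simp [locc, hj]

lemma occ_letter (i : ι) (s : Bool) : locc i (Sum.inr (i, s) : G ⊕ ι × Bool) = 1 := by
  simp [locc]

end basic

end Pool.Agent.TH6.KE
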