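import Pool.Agent.TH6.KE.Sparse

/-!
Nonsingular systems with a solution modulo the centre.
-/

set_option autoImplicit false
set_option linter.unusedSectionVars false

open Monoid

namespace Pool.Agent.TH6.KE

universe u v w z

variable {P : Type u} [Group P]

/-- an `N`-th root of the diagonal element `c` -/
def root (N : ℕ) (c : P) : Wr P (ZMod N) := ⟨fun i => if i = 0 then c else 1, 1⟩

lemma root_pow (N : ℕ) [NeZero N] (c : P) : root N c ^ N = Wr.diag P (ZMod N) c := by
  obtain ⟨m, hm⟩ : ∃ m, N = m + 1 := ⟨N - 1, by have := NeZero.ne N; omega⟩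
  have h1 := sol_spec N (fun l => if l = 0 then c⁻¹ else 1)
  have h2 : sol N (fun l => if l = 0 then c⁻¹ else 1) = root N c := by
    ext i
    · simp only [sol, root]
      by_cases h : i = 0
      · subst h
        simp
      · have : i.val ≠ 0 := fun h3 => h ((ZMod.val_eq_zero i).1 h3)
        simp [h, this]
    · rfl
  rw [h2] at h1
  have h3 : List.range N = 0 :: (List.range m).map Nat.succ := by
    rw [hm, List.range_succ_eq_map]
  rw [h3, List.map_cons, List.prod_cons, List.map_map] at h1
  have h4 : ((List.range m).map ((fun l => root N c * Wr.diag P (ZMod N) (if l = 0 then c⁻¹ else 1)) ∘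
      Nat.succ)).prod = root N c ^ m := by
    have : (fun l => root N c * Wr.diag P (ZMod N) (if l = 0 then c⁻¹ else 1)) ∘ Nat.succ =
        fun _ => root N c := by
      funext l
      simp
    rw [this, List.map_const', List.prod_replicate, List.length_range]
  rw [h4] at h1
  simp only [if_true, map_inv] at h1
  have h5 : root N c ^ m * root N c = Wr.diag P (ZMod N) c := by
    have h6 : root N c ^ m = (root N c * (Wr.diag P (ZMod N) c)⁻¹)⁻¹ :=
      (eq_inv_of_mul_eq_one_right h1)
    rw [h6]
    group
  have h7 : root N c ^ N = root N c ^ (m + 1) := by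
    congr 1
  rw [h7, pow_succ, h5]

/-- the wreath product with `ZMod N` acting through the `k`-th coordinate -/
def coord (n N : ℕ) (k : Fin n) : Wr P (ZMod N) →* Wr P (Fin n → ZMod N) where
  toFun x := ⟨fun a => x.f (a k), Pi.single k x.a⟩
  map_one' := by
    ext a
    · simp
    · simp
  map_mul' x y := by
    ext a
    · simp
    · simp [Pi.single_add]

lemma coord_diag (n N : ℕ) (k : Fin n) (c : P) :
    coord n N k (Wr.diag P (ZMod N) c) = Wr.diag P (Fin n → ZMod N) c := by
  ext a
  · simp [coord]
  · simp [coord]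

/-- the commuting roots -/
def xr (n N : ℕ) (c : Fin n → P) (k : Fin n) : Wr P (Fin n → ZMod N) := coord n N k (root N (c k))

lemma xr_pow (n N : ℕ) [NeZero N] (c : Fin n → P) (k : Fin n) :
    xr n N c k ^ N = Wr.diag P (Fin n → ZMod N) (c k) := by
  rw [xr, ← map_pow, root_pow, coord_diag]

lemma xr_comm (n N : ℕ) (c : Fin n → P) (hc : ∀ j k, Commute (c j) (c k)) (j k : Fin n) (hjk : j ≠ k) :
    Commute (xr n N c j) (xr n N c k) := by
  have h1 : ∀ a b : ZMod N, Commute (if a = 0 then c j else 1) (if b = 0 then c k else 1) := by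
    intro a b
    split_ifs
    · exact hc j k
    · exact Commute.one_right _
    · exact Commute.one_left _
    · exact Commute.one_left _
  show _ = _
  ext a
  · simp only [xr, coord, root, MonoidHom.coe_mk, OneHom.coe_mk, Wr.mul_f, Pi.sub_apply,
      Pi.single_eq_of_ne hjk.symm, Pi.single_eq_of_ne hjk, sub_zero]
    exact (h1 _ _).eq
  · simp only [xr, coord, root, MonoidHom.coe_mk, OneHom.coe_mk, Wr.mul_a]
    rw [add_comm]

lemma xr_diag (n N : ℕ) (c : Fin n → P) (k : Fin n) (u : P) (hu : Commute u (c k)) :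
    Commute (Wr.diag P (Fin n → ZMod N) u) (xr n N c k) := by
  have h1 : ∀ b : ZMod N, Commute u (if b = 0 then c k else 1) := by
    intro b
    split_ifs
    · exact hu
    · exact Commute.one_right _
  show _ = _
  ext a
  · simp only [xr, coord, root, MonoidHom.coe_mk, OneHom.coe_mk, Wr.mul_f, Wr.diag_f, Wr.diag_a,
      sub_zero]
    exact (h1 _).eq
  · simp

/-- the exponent sum of `t_i` -/
def eta (C : Type v) [Group C] (n : ℕ) (i : Fin n) :
    Coprod C (FreeGroup (Fin n)) →* Multiplicative ℤ :=
  Coprod.lift (1 : C →* Multiplicative ℤ)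
    (FreeGroup.lift (fun k : Fin n => if k = i then Multiplicative.ofAdd (1 : ℤ) else 1))

/-- a solution in a wreath product -/
theorem centre_solve {G : Type u} [Group G] (C : Subgroup G) (n : ℕ)
    (w : Fin n → Coprod C (FreeGroup (Fin n)))
    (hdet : (Matrix.of (fun i j : Fin n => Multiplicative.toAdd (eta C n i (w j)))).det ≠ 0)
    (b : Fin n → C)
    (hb : ∀ j, Coprod.lift (MonoidHom.id C) (FreeGroup.lift b) (w j) ∈ Subgroup.center C) :
    ∃ (N : ℕ) (τ : Fin n → Wr G (Fin n → ZMod N)), ∀ j,
      Coprod.lift ((Wr.diag G (Fin n → ZMod N)).comp C.subtype) (FreeGroup.lift τ) (w j) = 1 := by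
  set M : Matrix (Fin n) (Fin n) ℤ := Matrix.of (fun i j : Fin n => Multiplicative.toAdd (eta C n i (w j)))
    with hM
  set N := M.det.natAbs with hN
  have : NeZero N := ⟨by simpa [hN] using hdet⟩
  set c : Fin n → G := fun j => (Coprod.lift (MonoidHom.id C) (FreeGroup.lift b) (w j) : C) with hc
  have hcC : ∀ j (u : C), Commute (u : G) (c j) := by
    intro j u
    have := Subgroup.mem_center_iff.1 (hb j) u
    show (u : G) * c j = c j * u
    exact congrArg (Subtype.val) this
  have hcc : ∀ j k, Commute (c j) (c k) := fun j k => hcC k _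
  set x := xr n N c with hx
  have hpair : Pairwise fun j k => ∀ a b : Multiplicative ℤ,
      Commute (zpowersHom (Wr G (Fin n → ZMod N)) (x j) a)
        (zpowersHom (Wr G (Fin n → ZMod N)) (x k) b) := by
    intro j k hjk a b
    rw [zpowersHom_apply, zpowersHom_apply]
    exact (xr_comm n N c hcc j k hjk).zpow_zpow _ _
  set ζ : (∀ _ : Fin n, Multiplicative ℤ) →* Wr G (Fin n → ZMod N) :=
    MonoidHom.noncommPiCoprod (fun k => zpowersHom _ (x k)) hpair with hζ
  have hζs : ∀ k (m : Multiplicative ℤ), ζ (Pi.mulSingle k m) = x k ^ Multiplicative.toAdd m := by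
    intro k m
    rw [hζ, MonoidHom.noncommPiCoprod_mulSingle, zpowersHom_apply]
  have hcomm : ∀ (u : C) (v : ∀ _ : Fin n, Multiplicative ℤ),
      Commute (((Wr.diag G (Fin n → ZMod N)).comp C.subtype) u) (ζ v) := by
    intro u v
    have h1 : ζ.range ≤ Subgroup.centralizer {((Wr.diag G (Fin n → ZMod N)).comp C.subtype) u} := by
      rw [hζ, MonoidHom.noncommPiCoprod_range, iSup_le_iff]
      rintro k _ ⟨m, rfl⟩
      rw [Subgroup.mem_centralizer_iff]
      rintro _ rfl
      rw [zpowersHom_apply]
      exact ((xr_diag n N c k u (hcC k u)).zpow_right _).eq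
    have h2 := h1 ⟨v, rfl⟩
    rw [Subgroup.mem_centralizer_iff] at h2
    exact h2 _ rfl
  set s : ℤ := M.det.sign with hs
  set Y : Fin n → Fin n → ℤ := fun i k => -(s * M.adjugate k i) with hY
  set y : Fin n → (∀ _ : Fin n, Multiplicative ℤ) := fun i k => Multiplicative.ofAdd (Y i k) with hy
  refine ⟨N, fun i => Wr.diag G (Fin n → ZMod N) (b i) * ζ (y i), fun j => ?_⟩
  -- the two homomorphisms
  set E : Coprod C (FreeGroup (Fin n)) →* (∀ _ : Fin n, Multiplicative ℤ) :=
    Coprod.lift 1 (FreeGroup.lift y) with hE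
  have key : Coprod.lift ((Wr.diag G (Fin n → ZMod N)).comp C.subtype)
      (FreeGroup.lift fun i => Wr.diag G (Fin n → ZMod N) (b i) * ζ (y i)) =
      (MonoidHom.noncommCoprod ((Wr.diag G (Fin n → ZMod N)).comp C.subtype) ζ hcomm).comp
        (MonoidHom.prod (Coprod.lift (MonoidHom.id C) (FreeGroup.lift b)) E) := by
    apply Coprod.hom_ext
    · refine MonoidHom.ext fun u => ?_
      simp [hE]
    · refine FreeGroup.ext_hom _ _ fun u => ?_
      simp [hE]
  rw [key, MonoidHom.comp_apply, MonoidHom.noncommCoprod_apply, MonoidHom.prod_apply]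
  have hEw : E (w j) = Pi.mulSingle j (Multiplicative.ofAdd (-(N : ℤ))) := by
    have h1 : ∀ k, (Pi.evalMonoidHom _ k).comp E =
        ∏ i, (zpowGroupHom (Y i k)).comp (eta C n i) := by
      intro k
      ext u
      · simp [hE, eta]
      · simp only [hE, eta, MonoidHom.comp_apply, Coprod.lift_apply_inr, FreeGroup.lift_apply_of,
          Pi.evalMonoidHom_apply, MonoidHom.finsetProd_apply, zpowGroupHom_apply, hy]
        rw [Finset.prod_eq_single u]
        · simp
        · intro i _ hi
          simp [hi.symm]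
        · simp
    funext k
    have h2 := DFunLike.congr_fun (h1 k) (w j)
    simp only [MonoidHom.comp_apply, Pi.evalMonoidHom_apply, MonoidHom.finsetProd_apply,
      zpowGroupHom_apply] at h2
    rw [h2]
    apply Multiplicative.toAdd.injective
    rw [toAdd_prod]
    simp only [toAdd_zpow, smul_eq_mul]
    have h3 : ∑ i, Y i k * Multiplicative.toAdd (eta C n i (w j)) = -(s * (M.adjugate * M) k j) := by
      rw [Matrix.mul_apply, Finset.mul_sum, ← Finset.sum_neg_distrib]
      apply Finset.sum_congr rfl
      intro i _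
      simp only [hY, hM, Matrix.of_apply]
      ring
    rw [h3, Matrix.adjugate_mul, Matrix.smul_apply, smul_eq_mul]
    by_cases hkj : k = j
    · subst hkj
      rw [Matrix.one_apply_eq, Pi.mulSingle_eq_same, mul_one, toAdd_ofAdd, hs, hN,
        Int.sign_mul_self, Int.natCast_natAbs]
    · rw [Matrix.one_apply_ne hkj, Pi.mulSingle_eq_of_ne hkj]
      simp
  simp only [MonoidHom.comp_apply] at hEw ⊢
  rw [hEw, hζs]
  simp only [toAdd_ofAdd, zpow_neg, zpow_natCast, hx]
  rw [xr_pow]
  simp [hc]

end Pool.Agent.TH6.KE
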