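import Pool.Agent.TH6.KE.Base

/-!
Systems in which every word has at most two unknown letters, or every unknown occurs at most twice,
have solutions in `G wr ZMod 2`.
-/

set_option autoImplicit false
set_option linter.unusedSectionVars false

open Monoid

namespace Pool.Agent.TH6.KE

universe u v w z

variable {G : Type u} [Group G] {ι : Type v} [DecidableEq ι]

/-- solution of `t b t c = 1` -/
def sol2 (b c : G) : Wr G (ZMod 2) := ⟨fun i => if i = 0 then b⁻¹ else c⁻¹, 1⟩

lemma sol2_spec (b c : G) :
    sol2 b c * Wr.diag G (ZMod 2) b * sol2 b c * Wr.diag G (ZMod 2) c = 1 := by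
  have h2 : (1 : ZMod 2) + 1 = 0 := rfl
  have h01 : (0 : ZMod 2) - 1 = 1 := rfl
  have hd : ∀ i : ZMod 2, i = 0 ∨ i = 1 := by decide
  ext i
  · rw [Wr.mul_f, Wr.mul_f, Wr.mul_f, Wr.mul_a, Wr.mul_a, Wr.diag_f, Wr.diag_f, Wr.diag_a]
    simp only [sol2, add_zero, Wr.one_f]
    rcases hd i with rfl | rfl
    · simp [h01]
    · simp [h2]
  · simp [sol2, h2]

/-- the exponent sums of a word as a rational vector -/
def row (L : Wd G ι) : ι → ℚ := fun i => (exp i L : ℚ)

/-- every word has at most two unknown letters, or every unknown occurs at most twice in total -/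
def SQ {κ : Type z} [Fintype κ] (w : κ → Wd G ι) : Prop :=
  (∀ k, len (w k) ≤ 2) ∨ (∀ i, ∑ k, occ i (w k) ≤ 2)

/-- rows after elimination -/
lemma indep_elim {κ : Type z} [Fintype κ] [DecidableEq κ] {V : Type w} [AddCommGroup V] [Module ℚ V]
    (r : κ → V) (hr : LinearIndependent ℚ r) (j : κ) (c : κ → ℚ) :
    LinearIndependent ℚ (fun k : {k : κ // k ≠ j} => r k + c k • r j) := by
  rw [Fintype.linearIndependent_iff] at hr ⊢
  intro g hg k
  have h1 : ∑ k : κ, (if h : k ≠ j then g ⟨k, h⟩ else
      ∑ l : {k : κ // k ≠ j}, g l * c l) • r k = 0 := by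
    rw [← Finset.add_sum_erase Finset.univ _ (Finset.mem_univ j)]
    have h2 : ∑ k ∈ Finset.univ.erase j, (if h : k ≠ j then g ⟨k, h⟩ else
        ∑ l : {k : κ // k ≠ j}, g l * c l) • r k = ∑ k : {k : κ // k ≠ j}, g k • r k := by
      have h3 : Finset.univ.erase j = Finset.univ.filter (fun k => k ≠ j) := by
        ext k
        simp
      rw [h3, ← Finset.sum_subtype_eq_sum_filter]
      apply Finset.sum_congr
      · ext k
        simp
      · intro k _
        rw [dif_pos k.2]
    rw [h2]
    simp only [ne_eq, not_true_eq_false, dite_false]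
    rw [← hg, Finset.sum_smul, ← Finset.sum_add_distrib]
    apply Finset.sum_congr rfl
    intro l _
    rw [smul_add, add_comm, mul_smul]
  have h4 := hr _ h1 k
  rw [dif_pos k.2] at h4
  exact h4

/-- terminal systems -/
lemma terminal {κ : Type z} [Fintype κ] [DecidableEq κ] (w : κ → Wd G ι)
    (hr : LinearIndependent ℚ (fun k => row (w k))) (hs : SQ w)
    (h1 : ∀ k i, occ i (w k) ≠ 1) :
    ∃ τ : ι → Wr G (ZMod 2), ∀ k, ev (Wr.diag G (ZMod 2)) τ (w k) = 1 := by
  classical
  -- the private letter
  have h2 : ∀ k, ∃ i, exp i (w k) ≠ 0 := by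
    intro k
    by_contra h
    push Not at h
    apply hr.ne_zero k
    funext i
    simp [row, h i]
  choose i hi using h2
  have h3 : ∀ k l, occ l (w k) ≤ 2 := by
    intro k l
    rcases hs with hs | hs
    · exact (occ_le_len l _).trans (hs k)
    · exact (Finset.single_le_sum (f := fun k => occ l (w k)) (fun _ _ => Nat.zero_le _)
        (Finset.mem_univ k)).trans (hs l)
  have h4 : ∀ k, occ (i k) (w k) = 2 := by
    intro k
    have := h1 k (i k)
    have := h3 k (i k)
    have : occ (i k) (w k) ≠ 0 := fun h => hi k (exp_eq_zero_of_occ _ _ h)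
    omega
  -- the shape of the words
  have h5 : ∀ k, ∃ (A B C : Wd G ι) (s : Bool),
      w k = A ++ Sum.inr (i k, s) :: (B ++ Sum.inr (i k, s) :: C) ∧
      occ (i k) A = 0 ∧ occ (i k) B = 0 ∧ occ (i k) C = 0 := by
    intro k
    obtain ⟨A, R, s, e1, hA⟩ := split (i k) (w k) (by rw [h4]; norm_num)
    have e2 : occ (i k) R = 1 := by
      have := h4 k
      rw [e1, occ_append, occ_cons, hA, occ_letter] at this
      omega
    obtain ⟨B, C, s', e3, hB⟩ := split (i k) R (by rw [e2]; norm_num)
    have e4 : occ (i k) C = 0 := by
      rw [e3, occ_append, occ_cons, hB, occ_letter] at e2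
      omega
    have e5 : s = s' := by
      by_contra hne
      apply hi k
      rw [e1, e3, exp_append, exp_cons, exp_append, exp_cons, exp_eq_zero_of_occ _ _ hA,
        exp_eq_zero_of_occ _ _ hB, exp_eq_zero_of_occ _ _ e4]
      cases s <;> cases s' <;> simp_all [lexp]
    subst e5
    exact ⟨A, B, C, s, by rw [e1, e3], hA, hB, e4⟩
  have h6 : ∀ k k', k ≠ k' → occ (i k) (w k') = 0 := by
    intro k k' hk
    rcases hs with hs | hs
    · by_contra h
      have e1 : occ (i k) (w k') = 2 := by
        have := h1 k' (i k)
        have := h3 k' (i k)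
        omega
      have e2 : i k' = i k := by
        by_contra h7
        have := occ_add_le_len (i k') (i k) h7 (w k')
        rw [h4, e1] at this
        have := hs k'
        omega
      -- two proportional rows
      have e3 : ∀ m, i m = i k → ∃ x : ℚ, x ≠ 0 ∧ row (w m) = x • (Pi.single (i k) 1 : ι → ℚ) := by
        intro m hm
        refine ⟨(exp (i k) (w m) : ℚ), ?_, ?_⟩
        · rw [← hm]
          exact_mod_cast hi m
        · funext l
          by_cases hl : l = i k
          · subst hl
            simp [row]
          · have e4 := occ_add_le_len (i m) l (fun h => hl (h.symm.trans hm)) (w m)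
            rw [h4] at e4
            have := hs m
            have e5 : occ l (w m) = 0 := by omega
            simp [row, hl, exp_eq_zero_of_occ _ _ e5]
      obtain ⟨x, hx, ex⟩ := e3 k rfl
      obtain ⟨y, hy, ey⟩ := e3 k' e2
      rw [Fintype.linearIndependent_iff] at hr
      have e6 := hr (fun m => if m = k then y else if m = k' then -x else 0) (by
        rw [← Finset.add_sum_erase Finset.univ _ (Finset.mem_univ k),
          ← Finset.add_sum_erase (Finset.univ.erase k) _ (Finset.mem_erase.2 ⟨hk.symm,
            Finset.mem_univ k'⟩)]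
        rw [Finset.sum_eq_zero (s := (Finset.univ.erase k).erase k')]
        · simp only [if_true, hk.symm, if_false, add_zero]
          rw [ex, ey, smul_smul, smul_smul, ← add_smul]
          ring_nf
          simp
        · intro m hm
          rw [Finset.mem_erase, Finset.mem_erase] at hm
          simp [hm.1, hm.2.1]) k
      simp only [if_true] at e6
      exact hy e6
    · have e1 : occ (i k) (w k) + occ (i k) (w k') ≤ ∑ m, occ (i k) (w m) := by
        rw [← Finset.add_sum_erase Finset.univ _ (Finset.mem_univ k)]
        have := Finset.single_le_sum (f := fun m => occ (i k) (w m)) (fun _ _ => Nat.zero_le _)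
          (Finset.mem_erase.2 ⟨hk.symm, Finset.mem_univ k'⟩ : k' ∈ Finset.univ.erase k)
        omega
      have := hs (i k)
      rw [h4] at e1
      omega
  have h7 : Function.Injective i := by
    intro k k' hk
    by_contra h
    have := h6 k k' h
    rw [hk, h4] at this
    omega
  -- solution of each word
  have h8 : ∀ k, ∃ t : Wr G (ZMod 2), ∀ τ : ι → Wr G (ZMod 2), τ (i k) = t →
      (∀ l, l ≠ i k → occ l (w k) ≠ 0 → τ l = 1) → ev (Wr.diag G (ZMod 2)) τ (w k) = 1 := by
    intro k
    obtain ⟨A, B, C, s, e1, hA, hB, hC⟩ := h5 k
    set one : ι → G := fun _ => 1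
    set a := ev (MonoidHom.id G) one A with ha
    set b := ev (MonoidHom.id G) one B with hb
    set c := ev (MonoidHom.id G) one C with hc
    have key : ∀ τ : ι → Wr G (ZMod 2), (∀ l, l ≠ i k → occ l (w k) ≠ 0 → τ l = 1) →
        ev (Wr.diag G (ZMod 2)) τ A = Wr.diag G (ZMod 2) a ∧
        ev (Wr.diag G (ZMod 2)) τ B = Wr.diag G (ZMod 2) b ∧
        ev (Wr.diag G (ZMod 2)) τ C = Wr.diag G (ZMod 2) c := by
      intro τ hτ
      have sub : ∀ D : Wd G ι, occ (i k) D = 0 → (∀ l, occ l D ≠ 0 → occ l (w k) ≠ 0) →
          ev (Wr.diag G (ZMod 2)) τ D =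
            Wr.diag G (ZMod 2) (ev (MonoidHom.id G) one D) := by
        intro D hD hD'
        rw [← ev_one]
        apply ev_congr
        intro l hl
        apply hτ l _ (hD' l hl)
        rintro rfl
        exact hl hD
      refine ⟨sub A hA ?_, sub B hB ?_, sub C hC ?_⟩
      · intro l hl
        rw [e1, occ_append]
        omega
      · intro l hl
        rw [e1, occ_append, occ_cons, occ_append]
        omega
      · intro l hl
        rw [e1, occ_append, occ_cons, occ_append, occ_cons]
        omega
    have hsol := sol2_spec b (c * a)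
    cases s with
    | true =>
      refine ⟨sol2 b (c * a), fun τ h9 h10 => ?_⟩
      obtain ⟨kA, kB, kC⟩ := key τ h10
      rw [e1, ev_append, ev_cons, ev_append, ev_cons, kA, kB, kC]
      simp only [lval, h9]
      rw [map_mul] at hsol
      set x := sol2 b (c * a)
      set da := Wr.diag G (ZMod 2) a
      set db := Wr.diag G (ZMod 2) b
      set dc := Wr.diag G (ZMod 2) c
      have : da * (x * (db * (x * dc))) = da * (x * db * x * (dc * da)) * da⁻¹ := by group
      rw [this, hsol]
      simp
    | false =>
      refine ⟨(sol2 b (c * a))⁻¹, fun τ h9 h10 => ?_⟩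
      obtain ⟨kA, kB, kC⟩ := key τ h10
      rw [e1, ev_append, ev_cons, ev_append, ev_cons, kA, kB, kC]
      simp only [lval, h9, inv_inv]
      rw [map_mul] at hsol
      set x := sol2 b (c * a)
      set da := Wr.diag G (ZMod 2) a
      set db := Wr.diag G (ZMod 2) b
      set dc := Wr.diag G (ZMod 2) c
      have : da * (x * (db * (x * dc))) = da * (x * db * x * (dc * da)) * da⁻¹ := by group
      rw [this, hsol]
      simp
  choose t ht using h8
  refine ⟨fun l => if h : ∃ k, i k = l then t h.choose else 1, fun k => ht k _ ?_ ?_⟩
  · have h9 : ∃ k', i k' = i k := ⟨k, rfl⟩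
    rw [dif_pos h9, h7 h9.choose_spec]
  · intro l hl hl'
    rw [dif_neg]
    rintro ⟨k', rfl⟩
    apply hl'
    apply h6
    rintro rfl
    exact hl rfl

/-- systems with independent rows in which every word has at most two unknown letters, or every
unknown occurs at most twice in total, have a solution in the wreath product with `ZMod 2` -/
theorem solve : ∀ (n : ℕ) (κ : Type z) [Fintype κ] [DecidableEq κ], Fintype.card κ = n →
    ∀ w : κ → Wd G ι, LinearIndependent ℚ (fun k => row (w k)) → SQ w →
    ∃ τ : ι → Wr G (ZMod 2), ∀ k, ev (Wr.diag G (ZMod 2)) τ (w k) = 1 := by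
  intro n
  induction n with
  | zero =>
    intro κ _ _ hκ w _ _
    rw [Fintype.card_eq_zero_iff] at hκ
    exact ⟨fun _ => 1, fun k => hκ.elim k⟩
  | succ n ih =>
    intro κ _ _ hκ w hr hs
    by_cases h1 : ∀ k i, occ i (w k) ≠ 1
    · exact terminal w hr hs h1
    push Not at h1
    obtain ⟨j, i, hji⟩ := h1
    obtain ⟨A, B, s, e1, hA⟩ := split i (w j) (by rw [hji]; norm_num)
    have hB : occ i B = 0 := by
      rw [e1, occ_append, occ_cons, hA, occ_letter] at hji
      omega
    -- the word for `t_i`
    set v : Wd G ι := if s then winv A ++ winv B else B ++ A with hv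
    have hvi : occ i v = 0 := by
      rw [hv]
      split_ifs <;> simp [hA, hB]
    have hvo : ∀ l, l ≠ i → occ l v = occ l (w j) := by
      intro l hl
      rw [hv, e1, occ_append, occ_cons]
      have : locc l (Sum.inr (i, s) : G ⊕ ι × Bool) = 0 := by simp [locc, hl.symm]
      rw [this]
      split_ifs
      · simp
      · simp [add_comm]
    have hvl : len v + 1 = len (w j) := by
      rw [hv, e1, len_append, len_cons]
      simp only [llen]
      split_ifs
      · simp
        ring
      · simp
        ring
    have hve : ∀ l, l ≠ i → (exp l v : ℚ) = -(exp i (w j)) * exp l (w j) := by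
      intro l hl
      have h2 : exp i (w j) = if s then 1 else -1 := by
        rw [e1, exp_append, exp_cons, exp_eq_zero_of_occ _ _ hA, exp_eq_zero_of_occ _ _ hB]
        simp [lexp]
      have h3 : exp l (w j) = exp l A + exp l B := by
        rw [e1, exp_append, exp_cons]
        simp [lexp, hl.symm]
      rw [h2, h3, hv]
      cases s
      · simp [add_comm]
      · simp
        ring
    have hsq : (exp i (w j) : ℚ) * exp i (w j) = 1 := by
      have h2 : exp i (w j) = if s then 1 else -1 := by
        rw [e1, exp_append, exp_cons, exp_eq_zero_of_occ _ _ hA, exp_eq_zero_of_occ _ _ hB]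
        simp [lexp]
      rw [h2]
      cases s <;> simp
    -- the new system
    set w' : {k : κ // k ≠ j} → Wd G ι := fun k => wsub i v (w k) with hw'
    have hcard : Fintype.card {k : κ // k ≠ j} = n := by
      have := Fintype.card_subtype_compl (fun k : κ => k = j)
      simp only [Fintype.card_subtype_eq] at this
      have h3 : Fintype.card {k : κ // k ≠ j} = Fintype.card {k : κ // ¬ k = j} := rfl
      omega
    have hrow : ∀ k : {k : κ // k ≠ j}, row (w' k) =
        row (w k) + (-(exp i (w j) * exp i (w k) : ℚ)) • row (w j) := by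
      intro k
      funext l
      simp only [row, hw', Pi.add_apply, Pi.smul_apply, smul_eq_mul]
      by_cases hl : l = i
      · subst hl
        rw [exp_wsub_self, exp_eq_zero_of_occ _ _ hvi]
        push_cast
        linear_combination (exp l (w k) : ℚ) * hsq
      · rw [exp_wsub_of_ne _ _ _ _ hl]
        push_cast
        rw [hve l hl]
        ring
    have hr' : LinearIndependent ℚ (fun k => row (w' k)) := by
      have := indep_elim (fun k => row (w k)) hr j (fun k => -(exp i (w j) * exp i (w k) : ℚ))
      rw [show (fun k => row (w' k)) = _ from funext hrow]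
      exact this
    have hs' : SQ w' := by
      rcases hs with hs | hs
      · left
        intro k
        have h2 := len_wsub i v (w k)
        have h3 := hs k
        have h4 : len v ≤ 1 := by
          have := hs j
          omega
        have h5 : occ i (w k) * len v ≤ occ i (w k) * 1 := Nat.mul_le_mul_left _ h4
        simp only [hw']
        omega
      · right
        intro l
        have hsum : ∀ m, ∑ k : {k : κ // k ≠ j}, occ m (w k) + occ m (w j) = ∑ k, occ m (w k) := by
          intro m
          rw [← Finset.add_sum_erase Finset.univ (fun k => occ m (w k)) (Finset.mem_univ j), add_comm]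
          congr 1
          have h3 : Finset.univ.erase j = Finset.univ.filter (fun k => k ≠ j) := by
            ext k
            simp
          rw [h3, ← Finset.sum_subtype_eq_sum_filter]
          apply Finset.sum_congr
          · ext k
            simp
          · intro k _
            rfl
        by_cases hl : l = i
        · subst hl
          have : ∀ k : {k : κ // k ≠ j}, occ l (w' k) = 0 := by
            intro k
            simp only [hw']
            rw [occ_wsub_self, hvi, mul_zero]
          simp [this]
        · have h2 : ∀ k : {k : κ // k ≠ j}, occ l (w' k) = occ l (w k) + occ i (w k) * occ l (w j) := by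
            intro k
            simp only [hw']
            rw [occ_wsub_of_ne _ _ _ _ hl, hvo l hl]
          simp only [h2]
          rw [Finset.sum_add_distrib, ← Finset.sum_mul]
          have h3 := hsum i
          have h4 := hsum l
          have h5 := hs i
          have h6 := hs l
          have h7 : ∑ k : {k : κ // k ≠ j}, occ i (w k) ≤ 1 := by omega
          have h8 : (∑ k : {k : κ // k ≠ j}, occ i (w k)) * occ l (w j) ≤ 1 * occ l (w j) :=
            Nat.mul_le_mul_right _ h7
          omega
    obtain ⟨τ, hτ⟩ := ih {k : κ // k ≠ j} hcard w' hr' hs'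
    refine ⟨Function.update τ i (ev (Wr.diag G (ZMod 2)) τ v), fun k => ?_⟩
    by_cases hk : k = j
    · subst hk
      have hA' : ev (Wr.diag G (ZMod 2)) (Function.update τ i (ev (Wr.diag G (ZMod 2)) τ v)) A =
          ev (Wr.diag G (ZMod 2)) τ A := by
        apply ev_congr
        intro l hl
        have : l ≠ i := by
          rintro rfl
          exact hl hA
        simp [this]
      have hB' : ev (Wr.diag G (ZMod 2)) (Function.update τ i (ev (Wr.diag G (ZMod 2)) τ v)) B =
          ev (Wr.diag G (ZMod 2)) τ B := by
        apply ev_congr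
        intro l hl
        have : l ≠ i := by
          rintro rfl
          exact hl hB
        simp [this]
      rw [e1, ev_append, ev_cons, hA', hB']
      cases s
      · simp only [lval, Function.update_self, hv, Bool.false_eq_true, if_false, ev_append]
        group
      · simp only [lval, Function.update_self, hv, if_true, ev_append, ev_winv]
        group
    · rw [ev_wsub]
      exact hτ ⟨k, hk⟩

end Pool.Agent.TH6.KE
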