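import Pool.Agent.TH6.KE.Solve

/-!
Systems whose incidence graph is a pseudoforest (several occurrences of an unknown in an equation
with the same sign are counted as two).
-/

set_option autoImplicit false
set_option linter.unusedSectionVars false

open Monoid

namespace Pool.Agent.TH6.KE

universe u v w z

/-! ### Levin's theorem -/

section levin

lemma palindrome {P : Type u} [Group P] : ∀ (M : ℕ) (d : ℕ → P),
    ((List.range M).map fun k => (d (M - 1 - k))⁻¹ * d k).prod = 1
  | 0, d => by simp
  | 1, d => by simp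
  | M + 2, d => by
    have ih := palindrome M (fun j => d (j + 1))
    rw [List.range_succ, List.map_append, List.prod_append, List.range_succ_eq_map, List.map_cons,
      List.prod_cons, List.map_map]
    have h1 : ((List.range M).map ((fun k => (d (M + 2 - 1 - k))⁻¹ * d k) ∘ Nat.succ)).prod =
        ((List.range M).map fun k => (d (M - 1 - k + 1))⁻¹ * d (k + 1)).prod := by
      congr 1
      apply List.map_congr_left
      intro k hk
      have := List.mem_range.1 hk
      simp only [Function.comp]
      congr 3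
      omega
    rw [h1, ih]
    simp

lemma levin {P : Type u} [Group P] (n : ℕ) [NeZero n] (c : ℕ → P) (i : ZMod n) :
    ((List.range n).map fun l : ℕ => (c ((i - (l : ZMod n)).val))⁻¹ * c l).prod = 1 := by
  have hi : i.val < n := ZMod.val_lt i
  set m := i.val with hm
  have hn : n = (m + 1) + (n - 1 - m) := by omega
  have e1 : ∀ l, l ≤ m → (i - (l : ZMod n)).val = m - l := by
    intro l hl
    have : i - (l : ZMod n) = ((m - l : ℕ) : ZMod n) := by
      rw [Nat.cast_sub hl, hm, ZMod.natCast_zmod_val]
    rw [this, ZMod.val_natCast, Nat.mod_eq_of_lt (by omega)]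
  have e2 : ∀ l, m < l → l < n → (i - (l : ZMod n)).val = n + m - l := by
    intro l hl hl2
    have : i - (l : ZMod n) = ((n + m - l : ℕ) : ZMod n) := by
      rw [Nat.cast_sub (by omega), Nat.cast_add, ZMod.natCast_self, zero_add, hm,
        ZMod.natCast_zmod_val]
    rw [this, ZMod.val_natCast, Nat.mod_eq_of_lt (by omega)]
  have hr : List.range n = List.range (m + 1) ++ (List.range (n - 1 - m)).map (fun k => (m + 1) + k) := by
    conv_lhs => rw [hn]
    exact List.range_add
  rw [hr, List.map_append, List.prod_append, List.map_map]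
  have h1 : (List.range (m + 1)).map (fun l : ℕ => (c ((i - (l : ZMod n)).val))⁻¹ * c l) =
      (List.range (m + 1)).map (fun k => (c (m + 1 - 1 - k))⁻¹ * c k) := by
    apply List.map_congr_left
    intro k hk
    have := List.mem_range.1 hk
    rw [e1 k (by omega)]
    rfl
  have h2 : (List.range (n - 1 - m)).map ((fun l : ℕ => (c ((i - (l : ZMod n)).val))⁻¹ * c l) ∘
        (fun k => (m + 1) + k)) =
      (List.range (n - 1 - m)).map (fun k => (c ((m + 1) + (n - 1 - m - 1 - k)))⁻¹ * c ((m + 1) + k)) := by
    apply List.map_congr_left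
    intro k hk
    have := List.mem_range.1 hk
    simp only [Function.comp]
    rw [e2 (m + 1 + k) (by omega) (by omega)]
    congr 3
    omega
  rw [h1, h2, palindrome (m + 1) c, palindrome (n - 1 - m) (fun j => c ((m + 1) + j)), one_mul]

/-- the element solving the positive equation with coefficients `c 0, ..., c (n-1)` -/
def sol {P : Type u} [Group P] (n : ℕ) (c : ℕ → P) : Wr P (ZMod n) := ⟨fun j => (c j.val)⁻¹, 1⟩

lemma partial_prod {P : Type u} [Group P] (n : ℕ) (t : Wr P (ZMod n)) (ht : t.a = 1) (c : ℕ → P)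
    (k : ℕ) :
    ((List.range k).map fun l => t * Wr.diag P (ZMod n) (c l)).prod =
      ⟨fun i => ((List.range k).map fun l : ℕ => t.f (i - (l : ZMod n)) * c l).prod, (k : ZMod n)⟩ := by
  induction k with
  | zero =>
    ext i
    · simp
    · simp
  | succ k ih =>
    rw [List.range_succ, List.map_append, List.prod_append, ih]
    ext i
    · simp
    · simp [ht]

lemma sol_spec {P : Type u} [Group P] (n : ℕ) [NeZero n] (c : ℕ → P) :
    ((List.range n).map fun l => sol n c * Wr.diag P (ZMod n) (c l)).prod = 1 := by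
  rw [partial_prod n (sol n c) rfl c n]
  ext i
  · exact levin n c i
  · simp

lemma levin_list {P : Type u} [Group P] (cs : List P) (h : cs ≠ []) :
    ∃ x : Wr P (ZMod cs.length), (cs.map fun c => x * Wr.diag P _ c).prod = 1 := by
  have : NeZero cs.length := ⟨by simpa using h⟩
  refine ⟨sol cs.length (fun l => cs.getD l 1), ?_⟩
  have h1 := sol_spec cs.length (fun l => cs.getD l 1)
  rw [← h1]
  congr 1
  apply List.ext_getElem
  · simp
  · intro n h2 h3
    simp only [List.length_map] at h2
    simp [h2]

/-- `c₀ x c₁ x c₂ ⋯ x c_m = 1` has a solution in the wreath product, `m ≥ 1` -/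
lemma levin_list' {P : Type u} [Group P] (c₀ : P) (cs : List P) (h : cs ≠ []) :
    ∃ x : Wr P (ZMod cs.length),
      Wr.diag P _ c₀ * (cs.map fun c => x * Wr.diag P _ c).prod = 1 := by
  obtain ⟨l, a, rfl⟩ : ∃ l a, cs = l ++ [a] := ⟨cs.dropLast, cs.getLast h,
    (List.dropLast_append_getLast h).symm⟩
  have key : ∃ x : Wr P (ZMod (l ++ [a * c₀]).length),
      ((l ++ [a * c₀]).map fun c => x * Wr.diag P _ c).prod = 1 := levin_list _ (by simp)
  have e : (l ++ [a * c₀]).length = (l ++ [a]).length := by simp
  rw [e] at key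
  obtain ⟨x, hx⟩ := key
  refine ⟨x, ?_⟩
  rw [List.map_append, List.prod_append] at hx ⊢
  simp only [List.map_cons, List.map_nil, List.prod_cons, List.prod_nil, mul_one, map_mul] at hx ⊢
  set A := (l.map fun c => x * Wr.diag P (ZMod (l ++ [a]).length) c).prod
  have h1 : A * (x * Wr.diag P _ a) = (Wr.diag P _ c₀)⁻¹ := by
    rw [eq_inv_iff_mul_eq_one, ← hx]
    group
  rw [h1]
  simp

end levin

variable {G : Type u} [Group G] {ι : Type v} [DecidableEq ι]

/-- a word in which all occurrences of `t_i` have the same sign -/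
lemma mono_form {W : Type w} [Group W] (i : ι) (s : Bool) (L : Wd G ι)
    (hL : ∀ s', Sum.inr (i, s') ∈ L → s' = s) (d : G →* W) (τ : ι → W) :
    ∃ (c₀ : W) (cs : List W), cs.length = occ i L ∧
      ∀ (K : Type w) [Group K] (δ : W →* K) (t : K),
        ev (δ.comp d) (Function.update (fun l => δ (τ l)) i t) L =
          δ c₀ * (cs.map fun c => (if s then t else t⁻¹) * δ c).prod := by
  induction L with
  | nil => exact ⟨1, [], rfl, fun K _ δ t => by simp⟩
  | cons x L ih =>
    obtain ⟨c₀, cs, h1, h2⟩ := ih (fun s' h => hL s' (List.mem_cons_of_mem _ h))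
    rcases x with g | ⟨j, s'⟩
    · refine ⟨d g * c₀, cs, ?_, fun K _ δ t => ?_⟩
      · rw [occ_cons, h1]
        simp [locc]
      · rw [ev_cons, h2 K δ t]
        simp [lval, mul_assoc]
    · by_cases hj : j = i
      · subst hj
        have hs : s' = s := hL s' (List.mem_cons_self)
        subst hs
        refine ⟨1, c₀ :: cs, ?_, fun K _ δ t => ?_⟩
        · rw [occ_cons, List.length_cons, h1, occ_letter, add_comm]
        · rw [ev_cons, h2 K δ t]
          cases s' <;> simp [lval, mul_assoc]
      · refine ⟨(if s' then τ j else (τ j)⁻¹) * c₀, cs, ?_, fun K _ δ t => ?_⟩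
        · rw [occ_cons, h1]
          simp [locc, hj]
        · rw [ev_cons, h2 K δ t]
          cases s' <;> simp [lval, hj, mul_assoc]

/-- `t_i` occurs with both signs -/
def Mixed (i : ι) (L : Wd G ι) : Prop := Sum.inr (i, true) ∈ L ∧ Sum.inr (i, false) ∈ L

lemma occ_ne_zero_iff (i : ι) (L : Wd G ι) : occ i L ≠ 0 ↔ ∃ s, Sum.inr (i, s) ∈ L := by
  constructor
  · intro h
    obtain ⟨A, B, s, e, _⟩ := split i L h
    exact ⟨s, by rw [e]; simp⟩
  · rintro ⟨s, hs⟩
    obtain ⟨A, B, rfl⟩ := List.append_of_mem hs
    rw [occ_append, occ_cons, occ_letter]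
    omega

lemma Mixed.two_le {i : ι} {L : Wd G ι} (h : Mixed i L) : 2 ≤ occ i L := by
  obtain ⟨h1, h2⟩ := h
  obtain ⟨A, B, rfl⟩ := List.append_of_mem h1
  rw [List.mem_append, List.mem_cons] at h2
  rw [occ_append, occ_cons, occ_letter]
  rcases h2 with h2 | h2 | h2
  · have := (occ_ne_zero_iff i A).2 ⟨_, h2⟩
    omega
  · simp at h2
  · have := (occ_ne_zero_iff i B).2 ⟨_, h2⟩
    omega

lemma mono_of_not_mixed (i : ι) (L : Wd G ι) (h : ¬ Mixed i L) :
    ∃ s, ∀ s', Sum.inr (i, s') ∈ L → s' = s := by
  by_cases h1 : Sum.inr (i, true) ∈ L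
  · refine ⟨true, fun s' h2 => ?_⟩
    cases s'
    · exact absurd ⟨h1, h2⟩ h
    · rfl
  · refine ⟨false, fun s' h2 => ?_⟩
    cases s'
    · rfl
    · exact absurd h2 h1

lemma exp_ne_zero_of_mono (i : ι) (L : Wd G ι) (h : ¬ Mixed i L) (h0 : occ i L ≠ 0) :
    exp i L ≠ 0 := by
  obtain ⟨s, hs⟩ := mono_of_not_mixed i L h
  have key : ∀ M : Wd G ι, (∀ s', Sum.inr (i, s') ∈ M → s' = s) →
      exp i M = (if s then 1 else -1) * (occ i M : ℤ) := by
    intro M
    induction M with
    | nil => simp
    | cons x M ih =>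
      intro hM
      rw [exp_cons, occ_cons, ih (fun s' h => hM s' (List.mem_cons_of_mem _ h))]
      rcases x with g | ⟨j, s'⟩
      · simp [lexp, locc]
      · by_cases hj : j = i
        · subst hj
          have := hM s' (List.mem_cons_self)
          subst this
          cases s'
          · simp [lexp, locc]
            ring
          · simp [lexp, locc]
        · simp [lexp, locc, hj]
  rw [key L hs]
  cases s <;> simpa using h0

open Classical in
/-- the number of occurrences of `t_i`, where several occurrences with the same sign are counted as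
two -/
noncomputable def cnt (i : ι) (L : Wd G ι) : ℕ := if Mixed i L then occ i L else min (occ i L) 2

lemma cnt_le (i : ι) (L : Wd G ι) : cnt i L ≤ occ i L := by
  unfold cnt
  split_ifs
  · exact le_rfl
  · exact min_le_left _ _

lemma cnt_pos {i : ι} {L : Wd G ι} (h : occ i L ≠ 0) : 1 ≤ cnt i L := by
  unfold cnt
  split_ifs
  · omega
  · omega

lemma Mixed.cnt {i : ι} {L : Wd G ι} (h : Mixed i L) : cnt i L = occ i L := by
  simp [KE.cnt, h]

/-- for all sets `I` of unknowns and `J` of equations there are at most `|I| + |J|` occurrences of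
unknowns in `I` in equations in `J` (several occurrences of an unknown in an equation with the same
sign are counted as two) -/
def Sparse {κ : Type z} (w : κ → Wd G ι) : Prop :=
  ∀ (I : Finset ι) (J : Finset κ), ∑ j ∈ J, ∑ i ∈ I, cnt i (w j) ≤ I.card + J.card

/-! ### Solving the last equation -/

lemma rule_private {κ : Type z} [Fintype κ] [DecidableEq κ] (w : κ → Wd G ι) (j : κ) (i : ι)
    (h0 : occ i (w j) ≠ 0) (hm : ¬ Mixed i (w j)) (hp : ∀ k, k ≠ j → occ i (w k) = 0)
    (h : ∃ (W : Type u) (_ : Group W) (d : G →* W) (τ : ι → W), Conservative d ∧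
      ∀ k : {k : κ // k ≠ j}, ev d τ (w k) = 1) :
    ∃ (W : Type u) (_ : Group W) (d : G →* W) (τ : ι → W), Conservative d ∧
      ∀ k, ev d τ (w k) = 1 := by
  obtain ⟨W, _, d, τ, hd, hτ⟩ := h
  obtain ⟨s, hs⟩ := mono_of_not_mixed i (w j) hm
  obtain ⟨c₀, cs, hc, hf⟩ := mono_form i s (w j) hs d τ
  have hne : cs ≠ [] := by
    rintro rfl
    exact h0 hc.symm
  obtain ⟨x, hx⟩ := levin_list' c₀ cs hne
  refine ⟨Wr W (ZMod cs.length), inferInstance, (Wr.diag W (ZMod cs.length)).comp d,
    Function.update (fun l => Wr.diag W (ZMod cs.length) (τ l)) i (if s then x else x⁻¹),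
    Wr.conservative_diag.comp hd, fun k => ?_⟩
  by_cases hk : k = j
  · subst hk
    rw [hf (Wr W (ZMod cs.length)) (Wr.diag W (ZMod cs.length)) (if s then x else x⁻¹), ← hx]
    congr 2
    apply List.map_congr_left
    intro c _
    cases s <;> simp
  · have e1 : ev ((Wr.diag W (ZMod cs.length)).comp d)
        (Function.update (fun l => Wr.diag W (ZMod cs.length) (τ l)) i (if s then x else x⁻¹)) (w k) =
        ev ((Wr.diag W (ZMod cs.length)).comp d) (fun l => Wr.diag W (ZMod cs.length) (τ l)) (w k) := by
      apply ev_congr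
      intro l hl
      have : l ≠ i := by
        rintro rfl
        exact hl (hp k hk)
      simp [this]
    have e2 : ∀ L : Wd G ι, ev ((Wr.diag W (ZMod cs.length)).comp d)
        (fun l => Wr.diag W (ZMod cs.length) (τ l)) L = Wr.diag W (ZMod cs.length) (ev d τ L) := by
      intro L
      induction L with
      | nil => simp
      | cons x L ih =>
        rw [ev_cons, ev_cons, ih, map_mul]
        congr 1
        rcases x with g | ⟨l, s'⟩
        · rfl
        · cases s' <;> simp [lval]
    rw [e1, e2, hτ ⟨k, hk⟩, map_one]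

/-! ### Solving the first equation -/

/-- the unknown `t_i` is replaced by the constant `x` -/
def spec {K : Type w} [Group K] (δ : G →* K) (i : ι) (x : K) (L : Wd G ι) : Wd K ι :=
  L.map fun y => match y with
    | Sum.inl g => Sum.inl (δ g)
    | Sum.inr (l, s) => if l = i then Sum.inl (if s then x else x⁻¹) else Sum.inr (l, s)

section spec

variable {K : Type w} [Group K] (δ : G →* K) (i : ι) (x : K)

lemma ev_spec {W : Type z} [Group W] (d : K →* W) (τ : ι → W) (L : Wd G ι) :
    ev d τ (spec δ i x L) = ev (d.comp δ) (Function.update τ i (d x)) L := by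
  induction L with
  | nil => rfl
  | cons y L ih =>
    unfold spec at ih ⊢
    rw [List.map_cons, ev_cons, ev_cons, ih]
    congr 1
    rcases y with g | ⟨l, s⟩
    · rfl
    · by_cases h : l = i
      · subst h
        cases s <;> simp [lval]
      · cases s <;> simp [lval, h]

lemma mem_spec (l : ι) (s : Bool) (L : Wd G ι) :
    Sum.inr (l, s) ∈ spec δ i x L ↔ l ≠ i ∧ Sum.inr (l, s) ∈ L := by
  induction L with
  | nil => simp [spec]
  | cons y L ih =>
    unfold spec at ih ⊢
    rw [List.map_cons, List.mem_cons, ih, List.mem_cons]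
    rcases y with g | ⟨m, s'⟩
    · simp
    · by_cases h : m = i
      · subst h
        simp only [if_true, reduceCtorEq, false_or, Sum.inr.injEq, Prod.mk.injEq]
        constructor
        · rintro ⟨h1, h2⟩
          exact ⟨h1, Or.inr h2⟩
        · rintro ⟨h1, ⟨h2, _⟩ | h2⟩
          · exact absurd h2 h1
          · exact ⟨h1, h2⟩
      · simp only [h, if_false, Sum.inr.injEq, Prod.mk.injEq]
        constructor
        · rintro (⟨h1, h2⟩ | ⟨h1, h2⟩)
          · exact ⟨by rw [h1]; exact h, Or.inl ⟨h1, h2⟩⟩
          · exact ⟨h1, Or.inr h2⟩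
        · rintro ⟨h1, ⟨h2, h3⟩ | h2⟩
          · exact Or.inl ⟨h2, h3⟩
          · exact Or.inr ⟨h1, h2⟩

lemma occ_spec_ne (l : ι) (hl : l ≠ i) (L : Wd G ι) : occ l (spec δ i x L) = occ l L := by
  induction L with
  | nil => rfl
  | cons y L ih =>
    unfold spec at ih ⊢
    rw [List.map_cons, occ_cons, occ_cons, ih]
    congr 1
    rcases y with g | ⟨m, s'⟩
    · rfl
    · by_cases h : m = i
      · subst h
        simp [locc, hl.symm]
      · simp [locc, h]

lemma exp_spec_ne (l : ι) (hl : l ≠ i) (L : Wd G ι) : exp l (spec δ i x L) = exp l L := by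
  induction L with
  | nil => rfl
  | cons y L ih =>
    unfold spec at ih ⊢
    rw [List.map_cons, exp_cons, exp_cons, ih]
    congr 1
    rcases y with g | ⟨m, s'⟩
    · rfl
    · by_cases h : m = i
      · subst h
        simp [lexp, hl.symm]
      · simp [lexp, h]

lemma occ_spec_self (L : Wd G ι) : occ i (spec δ i x L) = 0 := by
  by_contra h
  obtain ⟨s, hs⟩ := (occ_ne_zero_iff i _).1 h
  exact ((mem_spec δ i x i s L).1 hs).1 rfl

lemma cnt_spec_le (l : ι) (L : Wd G ι) : cnt l (spec δ i x L) ≤ cnt l L := by
  by_cases hl : l = i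
  · subst hl
    exact (cnt_le _ _).trans (by rw [occ_spec_self]; exact Nat.zero_le _)
  · have : Mixed l (spec δ i x L) ↔ Mixed l L := by
      unfold Mixed
      rw [mem_spec, mem_spec]
      simp [hl]
    have h2 : cnt l (spec δ i x L) = cnt l L := by
      unfold cnt
      rw [occ_spec_ne δ i x l hl]
      by_cases h3 : Mixed l L
      · rw [if_pos h3, if_pos (this.2 h3)]
      · rw [if_neg h3, if_neg (fun h4 => h3 (this.1 h4))]
    exact h2.le

end spec

lemma rule_first {κ : Type z} [Fintype κ] [DecidableEq κ] (w : κ → Wd G ι) (j : κ) (i : ι)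
    (h0 : occ i (w j) ≠ 0) (hm : ¬ Mixed i (w j)) (hp : ∀ l, l ≠ i → occ l (w j) = 0)
    (hr : LinearIndependent ℚ (fun k => row (w k))) (hsp : Sparse w)
    (ih : ∀ (G' : Type u) [Group G'] (w' : {k : κ // k ≠ j} → Wd G' ι),
      LinearIndependent ℚ (fun k => row (w' k)) → Sparse w' →
      ∃ (W : Type u) (_ : Group W) (d : G' →* W) (τ : ι → W), Conservative d ∧
        ∀ k, ev d τ (w' k) = 1) :
    ∃ (W : Type u) (_ : Group W) (d : G →* W) (τ : ι → W), Conservative d ∧
      ∀ k, ev d τ (w k) = 1 := by
  obtain ⟨s, hs⟩ := mono_of_not_mixed i (w j) hm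
  obtain ⟨c₀, cs, hc, hf⟩ := mono_form i s (w j) hs (MonoidHom.id G) (fun _ => 1)
  have hne : cs ≠ [] := by
    rintro rfl
    exact h0 hc.symm
  obtain ⟨x, hx⟩ := levin_list' c₀ cs hne
  set δ := Wr.diag G (ZMod cs.length) with hδ
  set t : Wr G (ZMod cs.length) := if s then x else x⁻¹ with ht
  have hj : ∀ τ : ι → Wr G (ZMod cs.length), τ i = t → ev δ τ (w j) = 1 := by
    intro τ hτ
    rw [← hx]
    have e1 := hf (Wr G (ZMod cs.length)) δ t
    rw [MonoidHom.comp_id] at e1
    have e2 : ev δ τ (w j) = ev δ (Function.update (fun l => δ ((fun _ => 1 : ι → G) l)) i t) (w j) := by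
      apply ev_congr
      intro l hl
      by_cases hli : l = i
      · subst hli
        simp [hτ]
      · exact absurd (hp l hli) hl
    rw [e2, e1]
    congr 2
    apply List.map_congr_left
    intro c _
    cases s <;> simp [ht]
  set w' : {k : κ // k ≠ j} → Wd (Wr G (ZMod cs.length)) ι := fun k => spec δ i t (w k) with hw'
  have hej : (exp i (w j) : ℚ) ≠ 0 := by exact_mod_cast exp_ne_zero_of_mono i (w j) hm h0
  have hr' : LinearIndependent ℚ (fun k => row (w' k)) := by
    have hrow : ∀ k : {k : κ // k ≠ j}, row (w' k) =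
        row (w k) + (-(exp i (w k) / exp i (w j) : ℚ)) • row (w j) := by
      intro k
      funext l
      simp only [row, hw', Pi.add_apply, Pi.smul_apply, smul_eq_mul]
      by_cases hl : l = i
      · subst hl
        rw [exp_eq_zero_of_occ _ _ (occ_spec_self δ l t (w k))]
        field_simp
        simp
      · rw [exp_spec_ne δ i t l hl, exp_eq_zero_of_occ l (w j) (hp l hl)]
        simp
    have := indep_elim (fun k => row (w k)) hr j (fun k => -(exp i (w k) / exp i (w j) : ℚ))
    rw [show (fun k => row (w' k)) = _ from funext hrow]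
    exact this
  have hs' : Sparse w' := by
    intro I J
    have h1 := hsp I (J.map (Function.Embedding.subtype _))
    rw [Finset.sum_map, Finset.card_map] at h1
    have h2 : ∑ k ∈ J, ∑ l ∈ I, cnt l (w' k) ≤ ∑ k ∈ J, ∑ l ∈ I, cnt l (w k) :=
      Finset.sum_le_sum fun k _ => Finset.sum_le_sum fun l _ => cnt_spec_le δ i t l (w k)
    exact h2.trans h1
  obtain ⟨W, _, d, τ, hd, hτ⟩ := ih _ w' hr' hs'
  refine ⟨W, inferInstance, d.comp δ, Function.update τ i (d t),
    hd.comp Wr.conservative_diag, fun k => ?_⟩
  by_cases hk : k = j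
  · subst hk
    have e1 : ∀ L : Wd G ι, ev (d.comp δ) (Function.update (fun l => d 1) i (d t)) L =
        d (ev δ (Function.update (fun l => 1) i t) L) := by
      intro L
      induction L with
      | nil => simp
      | cons y L ih2 =>
        rw [ev_cons, ev_cons, ih2, map_mul]
        congr 1
        rcases y with g | ⟨l, s'⟩
        · rfl
        · by_cases hl : l = i
          · subst hl
            cases s' <;> simp [lval]
          · cases s' <;> simp [lval, hl]
    have e2 : ev (d.comp δ) (Function.update τ i (d t)) (w k) =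
        ev (d.comp δ) (Function.update (fun l => d 1) i (d t)) (w k) := by
      apply ev_congr
      intro l hl
      by_cases hli : l = i
      · subst hli
        simp
      · exact absurd (hp l hli) hl
    rw [e2, e1, hj _ (by simp), map_one]
  · rw [← ev_spec δ i t d τ (w k)]
    exact hτ ⟨k, hk⟩

lemma len_eq_sum [Fintype ι] (L : Wd G ι) : len L = ∑ i, occ i L := by
  induction L with
  | nil => simp
  | cons y L ih =>
    rw [len_cons, ih]
    simp only [occ_cons, Finset.sum_add_distrib]
    congr 1
    rcases y with g | ⟨l, s⟩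
    · simp [llen, locc]
    · simp [llen, locc]

/-- **Main theorem.** -/
theorem sparse_solve [Fintype ι] : ∀ (n : ℕ) (G : Type u) [Group G] (κ : Type z) [Fintype κ]
    [DecidableEq κ], Fintype.card κ = n → ∀ w : κ → Wd G ι,
    LinearIndependent ℚ (fun k => row (w k)) → Sparse w →
    ∃ (W : Type u) (_ : Group W) (d : G →* W) (τ : ι → W), Conservative d ∧
      ∀ k, ev d τ (w k) = 1 := by
  intro n
  induction n with
  | zero =>
    intro G _ κ _ _ hκ w _ _
    rw [Fintype.card_eq_zero_iff] at hκ
    exact ⟨G, inferInstance, MonoidHom.id G, fun _ => 1, fun _ _ h => h, fun k => hκ.elim k⟩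
  | succ n ih =>
    intro G _ κ _ _ hκ w hr hs
    have hcard : ∀ j : κ, Fintype.card {k : κ // k ≠ j} = n := by
      intro j
      have := Fintype.card_subtype_compl (fun k : κ => k = j)
      simp only [Fintype.card_subtype_eq] at this
      have h3 : Fintype.card {k : κ // k ≠ j} = Fintype.card {k : κ // ¬ k = j} := rfl
      omega
    by_cases hA : ∃ j i, occ i (w j) ≠ 0 ∧ ¬ Mixed i (w j) ∧ ∀ k, k ≠ j → occ i (w k) = 0
    · obtain ⟨j, i, h0, hm, hp⟩ := hA
      apply rule_private w j i h0 hm hp
      apply ih G {k : κ // k ≠ j} (hcard j) (fun k => w k)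
      · exact hr.comp _ Subtype.val_injective
      · intro I J
        have h1 := hs I (J.map (Function.Embedding.subtype _))
        rw [Finset.sum_map, Finset.card_map] at h1
        exact h1
    by_cases hB : ∃ j i, occ i (w j) ≠ 0 ∧ ¬ Mixed i (w j) ∧ ∀ l, l ≠ i → occ l (w j) = 0
    · obtain ⟨j, i, h0, hm, hp⟩ := hB
      exact rule_first w j i h0 hm hp hr hs (fun G' _ w' h1 h2 => ih G' _ (hcard j) w' h1 h2)
    push Not at hA hB
    -- every equation has exactly two unknown letters
    have hlen : ∀ j, len (w j) ≤ 2 := by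
      classical
      set I : Finset ι := Finset.univ.filter (fun i => ∃ j, occ i (w j) ≠ 0) with hI
      have h1 : ∀ i ∈ I, 2 ≤ ∑ j, cnt i (w j) := by
        intro i hi
        obtain ⟨j, hj⟩ := (Finset.mem_filter.1 hi).2
        have h2 : cnt i (w j) ≤ ∑ k, cnt i (w k) :=
          Finset.single_le_sum (f := fun k => cnt i (w k)) (fun _ _ => Nat.zero_le _)
            (Finset.mem_univ j)
        by_cases hm : Mixed i (w j)
        · have := hm.two_le
          rw [← hm.cnt] at this
          omega
        · obtain ⟨k, hk, hk'⟩ := hA j i hj hm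
          have h3 : cnt i (w j) + cnt i (w k) ≤ ∑ m, cnt i (w m) := by
            rw [← Finset.add_sum_erase Finset.univ _ (Finset.mem_univ j)]
            have := Finset.single_le_sum (f := fun m => cnt i (w m)) (fun _ _ => Nat.zero_le _)
              (Finset.mem_erase.2 ⟨hk, Finset.mem_univ k⟩ : k ∈ Finset.univ.erase j)
            omega
          have := cnt_pos hj
          have := cnt_pos hk'
          omega
      have hcI : ∀ j i, occ i (w j) ≠ 0 → i ∈ I := fun j i h =>
        Finset.mem_filter.2 ⟨Finset.mem_univ _, j, h⟩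
      have h2 : ∀ j, 2 ≤ ∑ i ∈ I, cnt i (w j) := by
        intro j
        have h3 : ∃ i, exp i (w j) ≠ 0 := by
          by_contra h
          push Not at h
          apply hr.ne_zero j
          funext i
          simp [row, h i]
        obtain ⟨i, hi⟩ := h3
        have hj : occ i (w j) ≠ 0 := fun h => hi (exp_eq_zero_of_occ _ _ h)
        have h4 : cnt i (w j) ≤ ∑ l ∈ I, cnt l (w j) :=
          Finset.single_le_sum (f := fun l => cnt l (w j)) (fun _ _ => Nat.zero_le _) (hcI j i hj)
        by_cases hm : Mixed i (w j)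
        · have := hm.two_le
          rw [← hm.cnt] at this
          omega
        · obtain ⟨l, hl, hl'⟩ := hB j i hj hm
          have h3 : cnt i (w j) + cnt l (w j) ≤ ∑ m ∈ I, cnt m (w j) := by
            rw [← Finset.add_sum_erase I _ (hcI j i hj)]
            have := Finset.single_le_sum (f := fun m => cnt m (w j)) (fun _ _ => Nat.zero_le _)
              (Finset.mem_erase.2 ⟨hl, hcI j l hl'⟩ : l ∈ I.erase i)
            omega
          have := cnt_pos hj
          have := cnt_pos hl'
          omega
      have h3 := hs I Finset.univ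
      have h4 : 2 * Fintype.card κ ≤ ∑ j, ∑ i ∈ I, cnt i (w j) := by
        calc 2 * Fintype.card κ = ∑ _j : κ, 2 := by simp [mul_comm]
          _ ≤ _ := Finset.sum_le_sum fun j _ => h2 j
      have h5 : 2 * I.card ≤ ∑ j, ∑ i ∈ I, cnt i (w j) := by
        rw [Finset.sum_comm]
        calc 2 * I.card = ∑ _i ∈ I, 2 := by simp [mul_comm]
          _ ≤ _ := Finset.sum_le_sum fun i hi => h1 i hi
      rw [Finset.card_univ] at h3
      have h6 : ∑ j, ∑ i ∈ I, cnt i (w j) = ∑ _j : κ, 2 := by
        rw [Finset.sum_const, smul_eq_mul, Finset.card_univ]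
        omega
      have h7 : ∀ j, ∑ i ∈ I, cnt i (w j) = 2 := by
        intro j
        have := (Finset.sum_eq_sum_iff_of_le (fun j _ => h2 j)).1 h6.symm j (Finset.mem_univ j)
        exact this.symm
      intro j
      rw [len_eq_sum, ← h7 j]
      have h8 : ∑ i, occ i (w j) = ∑ i ∈ I, occ i (w j) := by
        symm
        apply Finset.sum_subset (Finset.subset_univ I)
        intro i _ hi
        by_contra h
        exact hi (hcI j i h)
      rw [h8]
      apply Finset.sum_le_sum
      intro i hi
      by_cases hm : Mixed i (w j)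
      · rw [hm.cnt]
      · by_contra hlt
        push Not at hlt
        have hj : occ i (w j) ≠ 0 := by omega
        obtain ⟨l, hl, hl'⟩ := hB j i hj hm
        have h3 : cnt i (w j) + cnt l (w j) ≤ ∑ m ∈ I, cnt m (w j) := by
          rw [← Finset.add_sum_erase I _ (hcI j i hj)]
          have := Finset.single_le_sum (f := fun m => cnt m (w j)) (fun _ _ => Nat.zero_le _)
            (Finset.mem_erase.2 ⟨hl, hcI j l hl'⟩ : l ∈ I.erase i)
          omega
        have h9 := cnt_pos hl'
        rw [h7 j] at h3
        have h10 : cnt i (w j) = min (occ i (w j)) 2 := by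
          unfold cnt
          rw [if_neg hm]
        omega
    obtain ⟨τ, hτ⟩ := solve (Fintype.card κ) κ rfl w hr (Or.inl hlen)
    exact ⟨Wr G (ZMod 2), inferInstance, Wr.diag G (ZMod 2), τ, Wr.conservative_diag, hτ⟩

end Pool.Agent.TH6.KE
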